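import Pool.Agent.H9.Arens4

namespace Pool.Agent.Results.MP_cecf91_an.DiscreteGroups
open Pool.Agent.H9.Bid

/-- For every infinite discrete group `G`, `(ℓ¹(G)'', □)` has non-zero Jacobson radical. -/
theorem result (G : Type) [Group G] [Infinite G] : Ring.jacobson (Bidual (L1 G)) ≠ ⊥ :=
  Pool.Agent.H9.Arens4.main

end Pool.Agent.Results.MP_cecf91_an.DiscreteGroups
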